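import Pool.Agent.Y44.HM.Ext

/-!
# Central extensions of `ℤ_p` by hereditarily minimal discrete `p`-groups
-/

set_option autoImplicit false

namespace Pool.Agent.Results.MP_5355f8_al.MinimalQuotient

/-- For every sufficiently large prime `p` there is a torsion-free Hausdorff topological group `G`
whose centre is open and topologically isomorphic to `ℤ_p`, such that `G / Z(G)` is infinite, of
exponent dividing `p ^ 2`, and every Hausdorff group topology on a subgroup of `G / Z(G)` is
discrete. -/
theorem result : ∃ p0 : ℕ, ∀ (p : ℕ) [Fact p.Prime], p0 ≤ p →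
    ∃ (G : Type) (_ : Group G) (_ : TopologicalSpace G), IsTopologicalGroup G ∧ T2Space G ∧
      (∀ x : G, IsOfFinOrder x → x = 1) ∧
      IsOpen (Subgroup.center G : Set G) ∧
      Nonempty (Multiplicative ℤ_[p] ≃ₜ* Subgroup.center G) ∧
      Infinite (G ⧸ Subgroup.center G) ∧
      (∀ x : G ⧸ Subgroup.center G, x ^ (p ^ 2) = 1) ∧
      ∀ (H : Subgroup (G ⧸ Subgroup.center G)) (τ : TopologicalSpace H),
        @IsTopologicalGroup H τ _ → @T2Space H τ → @DiscreteTopology H τ := by
  obtain ⟨p0, h0⟩ := Pool.Agent.Y44.HM.exists_lim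
  refine ⟨max p0 3, fun p hp hpp => ?_⟩
  obtain ⟨Nw, A, K, _, _, φ, z, L⟩ := h0 p hp.out (le_trans (le_max_left _ _) hpp)
  obtain ⟨G, gG, tG, h1, h2, h3, h4, h5, χ, hχ⟩ := L.exists_ext
  refine ⟨G, gG, tG, h1, h2, h3, h4, h5, ?_, ?_, ?_⟩
  · have := L.infinite
    exact Infinite.of_surjective χ hχ.2
  · intro x
    apply hχ.1
    rw [map_pow, L.exp, map_one]
  · intro H τ hg hT
    let _ := τ
    have _ := hg
    have _ := hT
    have hp2 : p ≠ 2 := by
      have := le_trans (le_max_right p0 3) hpp
      omega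
    exact L.discrete hp.out hp2 (χ.comp H.subtype) (hχ.1.comp H.subtype_injective)

end Pool.Agent.Results.MP_5355f8_al.MinimalQuotient
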